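import Pool.Agent.X296.KDim

/-!
# The number of k-irreducible posets of k-dimension t grows exponentially in t, for every k
-/

set_option autoImplicit false

namespace Pool.Agent.Results.MP_f639ae_co.ExponentiallyMany

open Finset Pool.Agent.X296

/-- The `k`-dimension of a poset: the least `t ≥ 1` such that there is an order embedding (that is,
an injective map which preserves and reflects the order) of `P` in the product of `t` copies of
the chain with `k` elements. -/
noncomputable def kdim (k : ℕ) (P : Type) [PartialOrder P] : ℕ :=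
  sInf {t : ℕ | 1 ≤ t ∧ Nonempty (P ↪o (Fin t → Fin k))}

/-- A poset is `k`-irreducible if the removal of any of its elements lowers the `k`-dimension. -/
def KIrreducible (k : ℕ) (P : Type) [PartialOrder P] : Prop :=
  ∀ x : P, kdim k {y : P // y ≠ x} < kdim k P

/-- The isomorphism of finite posets (posets with the underlying sets `Fin n`, for all `n`). -/
def isoSetoid : Setoid (Σ n : ℕ, PartialOrder (Fin n)) where
  r p q := Nonempty (RelIso p.2.le q.2.le)
  iseqv :=
    { refl := fun _ => ⟨RelIso.refl _⟩
      symm := fun ⟨e⟩ => ⟨e.symm⟩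
      trans := fun ⟨e⟩ ⟨f⟩ => ⟨e.trans f⟩ }

/-- `N_k(t)`: the number of isomorphism classes of `k`-irreducible finite posets of
`k`-dimension `t`. -/
noncomputable def N (k t : ℕ) : ℕ∞ :=
  Set.encard {c : Quotient isoSetoid | ∃ p : Σ n : ℕ, PartialOrder (Fin n),
    Quotient.mk isoSetoid p = c ∧ @KIrreducible k (Fin p.1) p.2 ∧ @kdim k (Fin p.1) p.2 = t}

/-- the beginning of the block of `x`: the first `5 m` elements are divided in blocks of sizes
`2, 3` or `3, 2`, the other ones in one or two blocks -/
def start (m R : ℕ) (w : ℕ → Bool) (x : ℕ) : ℕ :=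
  if x < 5 * m then
    (if w (x / 5) = true then (if x % 5 < 3 then 5 * (x / 5) else 5 * (x / 5) + 3)
      else (if x % 5 < 2 then 5 * (x / 5) else 5 * (x / 5) + 2))
  else if R ≤ 3 then 5 * m
  else if R = 6 then (if x < 5 * m + 3 then 5 * m else 5 * m + 3)
  else (if x < 5 * m + 2 then 5 * m else 5 * m + 2)

lemma start_le (m R : ℕ) (w : ℕ → Bool) (x : ℕ) : start m R w x ≤ x := by
  unfold start
  split_ifs <;> omega

lemma lt_start (m R : ℕ) (hR : R ≤ 6) (w : ℕ → Bool) (x : ℕ) (hx : x < 5 * m + R) :
    x < start m R w x + 3 := by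
  unfold start
  split_ifs <;> omega

lemma lt_of_start (m R : ℕ) (w : ℕ → Bool) (x y : ℕ)
    (h : start m R w x < start m R w y) : x < start m R w y := by
  by_contra hcon
  push Not at hcon
  by_cases hy : y < 5 * m
  · by_cases hx : x < 5 * m
    · by_cases hxy : x / 5 = y / 5
      · unfold start at h hcon
        rw [if_pos hx, if_pos hy, hxy] at h
        rw [if_pos hy] at hcon
        split_ifs at h hcon <;> omega
      · have h1 : y / 5 < x / 5 := by
          have : start m R w y ≥ 5 * (y / 5) := by
            unfold start; split_ifs <;> omega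
          omega
        have h2 : start m R w x ≥ 5 * (x / 5) := by
          unfold start; split_ifs <;> omega
        have h3 : start m R w y ≤ y := start_le _ _ _ _
        omega
    · have h2 : start m R w x ≥ 5 * m := by
        unfold start; split_ifs <;> omega
      have h3 : start m R w y ≤ y := start_le _ _ _ _
      omega
  · by_cases hx : x < 5 * m
    · have h2 : start m R w y ≥ 5 * m := by
        unfold start; split_ifs <;> omega
      omega
    · unfold start at h hcon
      rw [if_neg hx, if_neg hy] at h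
      rw [if_neg hy] at hcon
      split_ifs at h hcon <;> omega

lemma start_lt_iff (m R : ℕ) (w : ℕ → Bool) (x y : ℕ) :
    start m R w y < start m R w x ↔ y < start m R w x :=
  ⟨lt_of_start m R w y x, fun h => (start_le m R w y).trans_lt h⟩

/-- the ordinal sum of the blocks -/
@[reducible] def ord (n m R : ℕ) (w : ℕ → Bool) : PartialOrder (Fin n) where
  le x y := x = y ∨ start m R w x < start m R w y
  lt x y := (x = y ∨ start m R w x < start m R w y) ∧ ¬ (y = x ∨ start m R w y < start m R w x)
  le_refl x := Or.inl rfl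
  le_trans x y z := by
    rintro (rfl | h1) (rfl | h2)
    · exact Or.inl rfl
    · exact Or.inr h2
    · exact Or.inr h1
    · exact Or.inr (h1.trans h2)
  lt_iff_le_not_ge _ _ := Iff.rfl
  le_antisymm x y := by
    rintro (rfl | h1) (h | h2)
    · rfl
    · rfl
    · exact h.symm
    · omega

lemma card_below (n m R : ℕ) (w : ℕ → Bool) (x : Fin n) :
    (univ.filter (fun y : Fin n => start m R w y < start m R w x)).card = start m R w x := by
  have h1 : start m R w x ≤ n := (start_le _ _ _ _).trans x.2.le
  have h2 : (univ.filter (fun y : Fin n => start m R w y < start m R w x)).card =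
      (range (start m R w x)).card := by
    refine Finset.card_bij (fun y _ => y.1) ?_ ?_ ?_
    · intro y hy
      simp only [mem_filter, mem_univ, true_and] at hy
      exact mem_range.2 ((start_lt_iff m R w x y).1 hy)
    · intro a _ b _ h
      exact Fin.ext h
    · intro b hb
      have hb' := mem_range.1 hb
      refine ⟨⟨b, by omega⟩, ?_, rfl⟩
      simp only [mem_filter, mem_univ, true_and]
      exact (start_lt_iff m R w x b).2 hb'
  rw [h2, card_range]

/-- an isomorphism preserves the beginnings of the blocks -/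
lemma start_iso (n m R : ℕ) (w w' : ℕ → Bool)
    (e : RelIso (ord n m R w).le (ord n m R w').le) (x : Fin n) :
    start m R w x = start m R w' (e x) := by
  rw [← card_below n m R w x, ← card_below n m R w' (e x)]
  have key : ∀ y : Fin n, start m R w y < start m R w x ↔ start m R w' (e y) < start m R w' (e x) := by
    intro y
    have h1 : (e y = e x ∨ start m R w' (e y) < start m R w' (e x)) ↔
        (y = x ∨ start m R w y < start m R w x) := e.map_rel_iff
    constructor
    · intro h
      rcases h1.2 (Or.inr h) with h2 | h2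
      · have := e.injective h2
        subst this
        omega
      · exact h2
    · intro h
      rcases h1.1 (Or.inr h) with h2 | h2
      · subst h2
        omega
      · exact h2
  refine Finset.card_bij (fun y _ => e y) ?_ ?_ ?_
  · intro y hy
    simp only [mem_filter, mem_univ, true_and] at hy ⊢
    exact (key y).1 hy
  · intro a _ b _ h
    exact e.injective h
  · intro b hb
    refine ⟨e.symm b, ?_, by simp⟩
    simp only [mem_filter, mem_univ, true_and] at hb ⊢
    rw [key]
    simpa using hb

lemma not_iso (n m R : ℕ) (w w' : ℕ → Bool) (hn : 5 * m ≤ n) (i : ℕ) (hi : i < m)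
    (h1 : w i = false) (h2 : w' i = true) :
    IsEmpty (RelIso (ord n m R w).le (ord n m R w').le) := by
  constructor
  intro e
  let x : Fin n := ⟨5 * i + 2, by omega⟩
  have h3 := start_iso n m R w w' e x
  have h4 : start m R w x = 5 * i + 2 := by
    have hx : x.1 / 5 = i := by simp only [x]; omega
    have hx2 : x.1 % 5 = 2 := by simp only [x]; omega
    unfold start
    rw [hx, hx2, h1, if_pos (by simp only [x]; omega)]
    simp
  rw [h4] at h3
  generalize (e x).1 = z at h3
  unfold start at h3
  by_cases hz : z < 5 * m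
  · rw [if_pos hz] at h3
    by_cases hw : w' (z / 5) = true
    · rw [if_pos hw] at h3
      split_ifs at h3 <;> omega
    · rw [if_neg hw] at h3
      have : z / 5 = i := by split_ifs at h3 <;> omega
      rw [this] at hw
      exact hw h2
  · rw [if_neg hz] at h3
    split_ifs at h3 <;> omega

/-- the poset `ord` -/
def Pos (n _m _R : ℕ) (_w : ℕ → Bool) : Type := Fin n

instance (n m R : ℕ) (w : ℕ → Bool) : PartialOrder (Pos n m R w) := ord n m R w

/-- the number of an element -/
def num {n m R : ℕ} {w : ℕ → Bool} (x : Pos n m R w) : ℕ := Fin.val (n := n) x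

lemma num_inj {n m R : ℕ} {w : ℕ → Bool} : Function.Injective (num (n := n) (m := m) (R := R) (w := w)) :=
  fun _ _ h => Fin.ext h

lemma num_lt {n m R : ℕ} {w : ℕ → Bool} (x : Pos n m R w) : num x < n := Fin.is_lt (n := n) x

lemma pos_le {n m R : ℕ} {w : ℕ → Bool} (x y : Pos n m R w) :
    x ≤ y ↔ x = y ∨ start m R w (num x) < start m R w (num y) := Iff.rfl

lemma step' (m R : ℕ) (w : ℕ → Bool) {n t k : ℕ} (φ : Fin n → Fin t → Fin k)
    (hφ : ∀ x y, φ x ≤ φ y ↔ (ord n m R w).le x y) (s r : ℕ) (hr : r = 2 ∨ r = 3) (hn : s + r ≤ n)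
    (hs : ∀ x, s ≤ x → x < s + r → start m R w x = s) :
    (∑ c, KDim.top φ s c) + r ≤ ∑ c, KDim.top φ (s + r) c := by
  refine KDim.step φ s r hr hn ?_ ?_
  · intro x y hx hy hy'
    rw [hφ]
    right
    rw [hs y hy hy']
    exact (start_le _ _ _ _).trans_lt hx
  · intro x y hx hx' hy hy' h
    rw [hφ] at h
    rcases h with h | h
    · exact h
    · rw [hs x hx hx', hs y hy hy'] at h
      omega

lemma pairs (m R : ℕ) (w : ℕ → Bool) {n t k : ℕ} (φ : Fin n → Fin t → Fin k)
    (hφ : ∀ x y, φ x ≤ φ y ↔ (ord n m R w).le x y) (hn : 5 * m ≤ n) (i : ℕ) (hi : i ≤ m) :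
    5 * i ≤ ∑ c, KDim.top φ (5 * i) c := by
  induction i with
  | zero => simp
  | succ i ih =>
    have ih' := ih (by omega)
    have e0 : 5 * (i + 1) = 5 * i + 5 := by ring
    rw [e0]
    by_cases hw : w i = true
    · have h1 := step' m R w φ hφ (5 * i) 3 (Or.inr rfl) (by omega) (by
        intro x hx hx'
        have e1 : x / 5 = i := by omega
        unfold start
        rw [if_pos (by omega), e1, if_pos hw, if_pos (by omega)])
      have h2 := step' m R w φ hφ (5 * i + 3) 2 (Or.inl rfl) (by omega) (by
        intro x hx hx'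
        have e1 : x / 5 = i := by omega
        unfold start
        rw [if_pos (by omega), e1, if_pos hw, if_neg (by omega)])
      have e2 : 5 * i + 3 + 2 = 5 * i + 5 := by ring
      rw [e2] at h2
      omega
    · have h1 := step' m R w φ hφ (5 * i) 2 (Or.inl rfl) (by omega) (by
        intro x hx hx'
        have e1 : x / 5 = i := by omega
        unfold start
        rw [if_pos (by omega), e1, if_neg hw, if_pos (by omega)])
      have h2 := step' m R w φ hφ (5 * i + 2) 3 (Or.inr rfl) (by omega) (by
        intro x hx hx'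
        have e1 : x / 5 = i := by omega
        unfold start
        rw [if_pos (by omega), e1, if_neg hw, if_neg (by omega)])
      have e2 : 5 * i + 2 + 3 = 5 * i + 5 := by ring
      rw [e2] at h2
      omega

/-- The lower bound for the `k`-dimension. -/
lemma lower (m R : ℕ) (w : ℕ → Bool) {t k : ℕ} (hR2 : 2 ≤ R) (hR6 : R ≤ 6) (hk : 1 ≤ k)
    (φ : Fin (5 * m + R) → Fin t → Fin k)
    (hφ : ∀ x y, φ x ≤ φ y ↔ (ord (5 * m + R) m R w).le x y) : 5 * m + R ≤ t * (k - 1) := by
  have h0 := pairs m R w φ hφ (by omega) m le_rfl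
  have h1 : (∑ c, KDim.top φ (5 * m) c) + R ≤ ∑ c, KDim.top φ (5 * m + R) c := by
    by_cases a : R ≤ 3
    · exact step' m R w φ hφ (5 * m) R (by omega) le_rfl (by
        intro x hx hx'
        unfold start
        rw [if_neg (by omega), if_pos a])
    · by_cases b : R = 6
      · subst b
        have h1 := step' m 6 w φ hφ (5 * m) 3 (Or.inr rfl) (by omega) (by
          intro x hx hx'
          unfold start
          rw [if_neg (by omega), if_neg (by omega), if_pos rfl, if_pos (by omega)])
        have h2 := step' m 6 w φ hφ (5 * m + 3) 3 (Or.inr rfl) (by omega) (by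
          intro x hx hx'
          unfold start
          rw [if_neg (by omega), if_neg (by omega), if_pos rfl, if_neg (by omega)])
        have e2 : ∑ c, KDim.top φ (5 * m + 3 + 3) c = ∑ c, KDim.top φ (5 * m + 6) c := rfl
        rw [e2] at h2
        omega
      · have h1 := step' m R w φ hφ (5 * m) 2 (Or.inl rfl) (by omega) (by
          intro x hx hx'
          unfold start
          rw [if_neg (by omega), if_neg a, if_neg b, if_pos (by omega)])
        have h2 := step' m R w φ hφ (5 * m + 2) (R - 2) (by omega) (by omega) (by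
          intro x hx hx'
          unfold start
          rw [if_neg (by omega), if_neg a, if_neg b, if_neg (by omega)])
        have e2 : 5 * m + 2 + (R - 2) = 5 * m + R := by omega
        rw [e2] at h2
        omega
  have h2 : ∑ c, KDim.top φ (5 * m + R) c ≤ ∑ _c : Fin t, (k - 1) := by
    refine Finset.sum_le_sum fun c _ => ?_
    refine KDim.top_le φ _ c _ fun x _ => ?_
    have := (φ x c).2
    omega
  rw [Finset.sum_const, card_univ, Fintype.card_fin, smul_eq_mul] at h2
  omega

/-- The embedding of the whole poset. -/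
lemma upper (m R : ℕ) (w : ℕ → Bool) {t k : ℕ} (hR6 : R ≤ 6) (hk : 1 ≤ k) (ht : 3 ≤ t)
    (hn : 5 * m + R ≤ t * (k - 1)) :
    Nonempty (Pos (5 * m + R) m R w ↪o (Fin t → Fin k)) :=
  KDim.embed_of (P := Pos (5 * m + R) m R w) num (fun x => start m R w (num x)) (5 * m + R) t k
    num_inj (fun _ => start_le _ _ _ _) (fun x => lt_start m R hR6 w (num x) (num_lt x))
    (fun x y h => lt_of_start m R w (num x) (num y) h) pos_le num_lt ht hn hk

/-- The embedding after the removal of an element. -/
lemma upper_remove (m R : ℕ) (w : ℕ → Bool) {t k : ℕ} (hR6 : R ≤ 6) (hk : 1 ≤ k) (ht : 3 ≤ t)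
    (hn : 5 * m + R - 1 ≤ t * (k - 1)) (z : Pos (5 * m + R) m R w) :
    Nonempty ({y : Pos (5 * m + R) m R w // y ≠ z} ↪o (Fin t → Fin k)) := by
  have hne : ∀ x : {y : Pos (5 * m + R) m R w // y ≠ z}, num x.1 ≠ num z :=
    fun x h => x.2 (num_inj h)
  refine KDim.embed_of (fun x : {y : Pos (5 * m + R) m R w // y ≠ z} =>
      if num x.1 < num z then num x.1 else num x.1 - 1)
    (fun x => start m R w (num x.1) - (if num z < start m R w (num x.1) then 1 else 0))
    (5 * m + R - 1) t k ?_ ?_ ?_ ?_ ?_ ?_ ht hn hk
  · intro x y h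
    have h1 := hne x
    have h2 := hne y
    simp only at h
    apply Subtype.ext
    apply num_inj
    split_ifs at h <;> omega
  · intro x
    have h1 := hne x
    have h2 := start_le m R w (num x.1)
    show start m R w (num x.1) - (if num z < start m R w (num x.1) then 1 else 0) ≤
      (if num x.1 < num z then num x.1 else num x.1 - 1)
    split_ifs <;> omega
  · intro x
    have h1 := hne x
    have h2 := start_le m R w (num x.1)
    have h3 := lt_start m R hR6 w (num x.1) (num_lt x.1)
    show (if num x.1 < num z then num x.1 else num x.1 - 1) <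
      start m R w (num x.1) - (if num z < start m R w (num x.1) then 1 else 0) + 3
    split_ifs <;> omega
  · intro x y
    have a1 := hne x
    have a2 := hne y
    have b1 := start_le m R w (num x.1)
    have b2 := start_le m R w (num y.1)
    have c1 := lt_of_start m R w (num x.1) (num y.1)
    have c3 := lt_of_start m R w (num y.1) (num x.1)
    show start m R w (num x.1) - (if num z < start m R w (num x.1) then 1 else 0) <
        start m R w (num y.1) - (if num z < start m R w (num y.1) then 1 else 0) →
      (if num x.1 < num z then num x.1 else num x.1 - 1) <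
        start m R w (num y.1) - (if num z < start m R w (num y.1) then 1 else 0)
    intro h
    by_cases hlt : start m R w (num x.1) < start m R w (num y.1)
    · have c2 := c1 hlt
      split_ifs at h ⊢ <;> omega
    · exfalso
      split_ifs at h <;> omega
  · intro x y
    have a1 := hne x
    have a2 := hne y
    have b1 := start_le m R w (num x.1)
    have b2 := start_le m R w (num y.1)
    have c1 := lt_of_start m R w (num x.1) (num y.1)
    have d : x ≤ y ↔ (x.1 = y.1 ∨ start m R w (num x.1) < start m R w (num y.1)) := Iff.rfl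
    rw [d]
    have e1 : x.1 = y.1 ↔ x = y := Subtype.ext_iff.symm
    rw [e1]
    refine or_congr_right ?_
    show _ ↔ start m R w (num x.1) - (if num z < start m R w (num x.1) then 1 else 0) <
        start m R w (num y.1) - (if num z < start m R w (num y.1) then 1 else 0)
    constructor
    · intro hlt
      have c2 := c1 hlt
      split_ifs <;> omega
    · intro h
      by_contra hcon
      split_ifs at h <;> omega
  · intro x
    have h1 := hne x
    have h2 := num_lt x.1
    have h3 := num_lt z
    show (if num x.1 < num z then num x.1 else num x.1 - 1) < 5 * m + R - 1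
    split_ifs <;> omega

lemma kdim_eq (m R : ℕ) (w : ℕ → Bool) {t k : ℕ} (hR2 : 2 ≤ R) (hR6 : R ≤ 6) (hk : 2 ≤ k) (ht : 4 ≤ t)
    (hn : 5 * m + R = (t - 1) * (k - 1) + 1) :
    kdim k (Pos (5 * m + R) m R w) = t := by
  obtain ⟨s, rfl⟩ : ∃ s, t = s + 1 := ⟨t - 1, by omega⟩
  obtain ⟨l, rfl⟩ : ∃ l, k = l + 2 := ⟨k - 2, by omega⟩
  simp only [Nat.add_sub_cancel] at hn
  have e1 : l + 2 - 1 = l + 1 := rfl
  rw [e1] at hn
  have hmem : s + 1 ∈ {t : ℕ | 1 ≤ t ∧ Nonempty (Pos (5 * m + R) m R w ↪o (Fin t → Fin (l + 2)))} := by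
    refine ⟨by omega, upper m R w hR6 (by omega) (by omega) ?_⟩
    rw [hn, e1]
    nlinarith
  apply le_antisymm
  · exact Nat.sInf_le hmem
  · refine le_csInf ⟨_, hmem⟩ ?_
    rintro t' ⟨-, ⟨f⟩⟩
    have h1 := lower (t := t') (k := l + 2) m R w hR2 hR6 (by omega) (fun x => f x)
      (fun x y => f.le_iff_le)
    by_contra hcon
    have h2 : t' ≤ s := by omega
    have h3 : t' * (l + 2 - 1) ≤ s * (l + 1) := Nat.mul_le_mul_right _ h2
    omega

lemma irreducible (m R : ℕ) (w : ℕ → Bool) {t k : ℕ} (hR2 : 2 ≤ R) (hR6 : R ≤ 6) (hk : 2 ≤ k) (ht : 4 ≤ t)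
    (hn : 5 * m + R = (t - 1) * (k - 1) + 1) :
    KIrreducible k (Pos (5 * m + R) m R w) := by
  intro z
  rw [kdim_eq m R w hR2 hR6 hk ht hn]
  have h1 := upper_remove (t := t - 1) (k := k) m R w hR6 (by omega) (by omega) (by omega) z
  have h2 : kdim k {y : Pos (5 * m + R) m R w // y ≠ z} ≤ t - 1 :=
    Nat.sInf_le ⟨by omega, h1⟩
  omega

/-- For every `k ≥ 2` and `t ≥ 4` there are at least `2 ^ ⌊((t - 1) (k - 1) - 1) / 5⌋` isomorphism
classes of `k`-irreducible posets of `k`-dimension `t`. In particular, for every `k ≥ 2`, `N_k(t)`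
is not bounded by `C t ^ c` for any constants `C` and `c`. -/
theorem result : ∀ k : ℕ, 2 ≤ k →
    (∀ t : ℕ, 4 ≤ t → 2 ^ (((t - 1) * (k - 1) - 1) / 5) ≤ N k t) ∧
    ∀ C c : ℕ, ∃ t : ℕ, 1 ≤ t ∧ ((C * t ^ c : ℕ) : ℕ∞) < N k t := by
  intro k hk
  have main : ∀ t : ℕ, 4 ≤ t → 2 ^ (((t - 1) * (k - 1) - 1) / 5) ≤ N k t := by
    intro t ht
    have hpos : 3 ≤ (t - 1) * (k - 1) := by
      calc 3 = 3 * 1 := rfl
        _ ≤ (t - 1) * (k - 1) := Nat.mul_le_mul (by omega) (by omega)
    set m := ((t - 1) * (k - 1) - 1) / 5 with hm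
    obtain ⟨R, hR⟩ : ∃ R, 5 * m + R = (t - 1) * (k - 1) + 1 :=
      ⟨(t - 1) * (k - 1) + 1 - 5 * m, by omega⟩
    have hR2 : 2 ≤ R := by omega
    have hR6 : R ≤ 6 := by omega
    let W : (Fin m → Bool) → ℕ → Bool := fun w i => if h : i < m then w ⟨i, h⟩ else false
    let F : (Fin m → Bool) → Quotient isoSetoid := fun w =>
      Quotient.mk isoSetoid ⟨5 * m + R, ord (5 * m + R) m R (W w)⟩
    have hW : ∀ (w : Fin m → Bool) (i : Fin m), W w i.1 = w i := fun w i => by
      simp only [W, i.2, dif_pos]
    have hinj : Function.Injective F := by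
      intro w w' h
      by_contra hne
      obtain ⟨i, hi⟩ := Function.ne_iff.1 hne
      obtain ⟨e⟩ := Quotient.exact h
      cases h1 : w i with
      | false =>
        have h2 : w' i = true := by
          cases h3 : w' i with
          | true => rfl
          | false => rw [h1, h3] at hi; exact absurd rfl hi
        exact (not_iso (5 * m + R) m R (W w) (W w') (by omega) i i.2 (by rw [hW, h1])
          (by rw [hW, h2])).false e
      | true =>
        have h2 : w' i = false := by
          cases h3 : w' i with
          | false => rfl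
          | true => rw [h1, h3] at hi; exact absurd rfl hi
        exact (not_iso (5 * m + R) m R (W w') (W w) (by omega) i i.2 (by rw [hW, h2])
          (by rw [hW, h1])).false e.symm
    have hsub : Set.range F ⊆ {c : Quotient isoSetoid | ∃ p : Σ n : ℕ, PartialOrder (Fin n),
        Quotient.mk isoSetoid p = c ∧ @KIrreducible k (Fin p.1) p.2 ∧
          @kdim k (Fin p.1) p.2 = t} := by
      rintro _ ⟨w, rfl⟩
      exact ⟨_, rfl, irreducible m R (W w) hR2 hR6 hk ht hR, kdim_eq m R (W w) hR2 hR6 hk ht hR⟩
    have hcard : (Set.range F).encard = 2 ^ m := by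
      rw [← Set.image_univ, hinj.encard_image, Set.encard_univ, ENat.card_eq_coe_fintype_card]
      simp
    rw [← hcard]
    exact Set.encard_le_encard hsub
  refine ⟨main, ?_⟩
  intro C c
  have h1 : Filter.Tendsto (fun s : ℕ => (s : ℝ) ^ c / (2 : ℝ) ^ s) Filter.atTop (nhds 0) :=
    tendsto_pow_const_div_const_pow_of_one_lt c (by norm_num)
  have h2 : (0 : ℝ) < 1 / (C * 7 ^ c + 1) := by positivity
  obtain ⟨s, hs1, hs2⟩ := ((h1.eventually (gt_mem_nhds h2)).and (Filter.eventually_ge_atTop 1)).exists
  refine ⟨5 * s + 2, by omega, ?_⟩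
  have h3 : (C * (5 * s + 2) ^ c : ℕ) < 2 ^ s := by
    have h4 : (C * (5 * s + 2) ^ c : ℝ) < 2 ^ s := by
      rw [div_lt_div_iff₀ (by positivity) (by positivity)] at hs1
      have h5 : ((5 * s + 2 : ℝ)) ^ c ≤ (7 * s) ^ c := by
        have : (1 : ℝ) ≤ s := by exact_mod_cast hs2
        exact pow_le_pow_left₀ (by positivity) (by linarith) c
      have h6 : (C * (5 * s + 2) ^ c : ℝ) ≤ C * 7 ^ c * s ^ c := by
        calc (C * (5 * s + 2) ^ c : ℝ) ≤ C * (7 * s) ^ c := by gcongr
          _ = _ := by rw [mul_pow]; ring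
      have h7 : (0 : ℝ) < (s : ℝ) ^ c := by
        have : (0 : ℝ) < s := by exact_mod_cast hs2
        positivity
      nlinarith
    exact_mod_cast h4
  have h4 : (2 : ℕ∞) ^ s ≤ N k (5 * s + 2) := by
    refine le_trans ?_ (main (5 * s + 2) (by omega))
    refine pow_le_pow_right₀ (by norm_num) ?_
    rw [Nat.le_div_iff_mul_le (by norm_num)]
    have : 5 * s + 1 ≤ (5 * s + 2 - 1) * (k - 1) := by
      calc 5 * s + 1 = (5 * s + 2 - 1) * 1 := by omega
        _ ≤ _ := Nat.mul_le_mul_left _ (by omega)
    omega
  calc ((C * (5 * s + 2) ^ c : ℕ) : ℕ∞) < ((2 ^ s : ℕ) : ℕ∞) := by exact_mod_cast h3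
    _ = 2 ^ s := by push_cast; rfl
    _ ≤ _ := h4

end Pool.Agent.Results.MP_f639ae_co.ExponentiallyMany
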